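import Pool.Agent.R948.LEb

/-!
# MP_2194ec_nt: the dynamical Lehmer conjecture and powers of the degree

`HeightBound φ K d` is the lower bound `ĥ(P) ≥ C(f) φ([L : K])`, `C(f) > 0`, for the canonical
heights of the wandering points `P` over all finite extensions `L` of `K`, for all endomorphisms `f`
over `K` of degree `d` of projective spaces of all dimensions; for `φ(D) = 1 / D` it is the
dynamical Lehmer conjecture over `K` in degree `d`. `DynamicalLehmer` is `S16285` word for word.

* (1) for every function `φ` and every number field `K`: if `d ^ a = e ^ b` with `a, b > 0`, then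
  the bound holds for all endomorphisms of degree `d` if and only if it holds for all endomorphisms
  of degree `e`;
* (2) the dynamical Lehmer conjecture is equivalent to its case where the degree is not a perfect
  power.
-/

set_option autoImplicit false

namespace Pool.Agent.Results.MP_2194ec_nt.DegreePowers

open Pool.Agent.R948.LE

theorem result :
    (∀ (φ : ℕ → ℝ) (K : Type) [Field K] [NumberField K] (d e a b : ℕ), 2 ≤ d → 2 ≤ e →
      0 < a → 0 < b → d ^ a = e ^ b → (HeightBound φ K d ↔ HeightBound φ K e)) ∧
    (DynamicalLehmer ↔
      ∀ (K : Type) [Field K] [NumberField K] (d : ℕ), 2 ≤ d → (∀ b a : ℕ, 2 ≤ a → d ≠ b ^ a) →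
        HeightBound (fun D => 1 / (D : ℝ)) K d) :=
  ⟨fun _ _ _ _ _ _ _ _ hd he ha hb h => heightBound_iff_of_pow_eq hd he ha hb h,
    dynamicalLehmer_iff⟩

end Pool.Agent.Results.MP_2194ec_nt.DegreePowers
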